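import Mathlib
set_option autoImplicit false
namespace Pool.Agent.Helper65.MS
open Finset

/-- combinatorial criticality (same body as `Pool.Agent.Helper135.MS.CritC`) -/
def Crit {V : Type*} (G : SimpleGraph V) : Prop :=
  ∀ y z, G.Adj y z → (∀ x, ¬ (G.Adj y x ∧ G.Adj x z)) ∨
    ∃ w, (G.Adj z w ∧ ¬ G.Adj y w ∧ y ≠ w ∧ ∀ x, G.Adj y x → G.Adj x w → x = z) ∨
      (G.Adj y w ∧ ¬ G.Adj z w ∧ z ≠ w ∧ ∀ x, G.Adj z x → G.Adj x w → x = y)

variable {V : Type*} [Fintype V] [DecidableEq V] {G : SimpleGraph V} [DecidableRel G.Adj]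

lemma pair_deg {y z w : V} (hyw : ¬ G.Adj y w) (hne : y ≠ w)
    (hu : ∀ x, G.Adj y x → G.Adj x w → x = z) :
    G.degree y + G.degree w + 1 ≤ Fintype.card V := by
  have h1 := card_union_add_card_inter (G.neighborFinset y) (G.neighborFinset w)
  have h2 : #(G.neighborFinset y ∩ G.neighborFinset w) ≤ 1 := by
    rw [← card_singleton z]
    apply card_le_card
    intro x hx
    simp only [mem_inter, SimpleGraph.mem_neighborFinset] at hx
    exact mem_singleton.2 (hu x hx.1 hx.2.symm)
  have h3 : #(G.neighborFinset y ∪ G.neighborFinset w) + 2 ≤ Fintype.card V := by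
    have hd : Disjoint (G.neighborFinset y ∪ G.neighborFinset w) ({y, w} : Finset V) := by
      rw [Finset.disjoint_left]
      intro x hx hx'
      simp only [mem_union, SimpleGraph.mem_neighborFinset, mem_insert, mem_singleton] at hx hx'
      rcases hx' with rfl | rfl
      · rcases hx with hx | hx
        · exact G.loopless.irrefl _ hx
        · exact hyw hx.symm
      · rcases hx with hx | hx
        · exact hyw hx
        · exact G.loopless.irrefl _ hx
    have h4 := card_union_of_disjoint hd
    have h5 := card_le_univ ((G.neighborFinset y ∪ G.neighborFinset w) ∪ {y, w})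
    rw [h4, card_pair hne] at h5
    exact h5
  rw [SimpleGraph.card_neighborFinset_eq_degree, SimpleGraph.card_neighborFinset_eq_degree] at h1
  omega

lemma edge_deg {y z : V} (hu : ∀ x, ¬ (G.Adj y x ∧ G.Adj x z)) :
    G.degree y + G.degree z ≤ Fintype.card V := by
  have hd : Disjoint (G.neighborFinset y) (G.neighborFinset z) := by
    rw [Finset.disjoint_left]
    intro x hx hx'
    simp only [SimpleGraph.mem_neighborFinset] at hx hx'
    exact hu x ⟨hx, hx'.symm⟩
  have h4 := card_union_of_disjoint hd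
  have h5 := card_le_univ (G.neighborFinset y ∪ G.neighborFinset z)
  rw [SimpleGraph.card_neighborFinset_eq_degree, SimpleGraph.card_neighborFinset_eq_degree] at h4
  omega

/-- even case -/
lemma even_case (hc : Crit G) (D : ℕ) (hD : 1 ≤ D) (hreg : ∀ x, G.degree x = D)
    (hn : Fintype.card V = 2 * D) :
    ∃ S : Finset V, #S = D ∧ ∀ a b, G.Adj a b ↔ (a ∈ S ∧ b ∉ S ∨ a ∉ S ∧ b ∈ S) := by
  have h0 : ∀ y z, G.Adj y z → ∀ x, ¬ (G.Adj y x ∧ G.Adj x z) := by
    intro y z hyz
    rcases hc y z hyz with h | ⟨w, h | h⟩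
    · exact h
    · have := pair_deg h.2.1 h.2.2.1 h.2.2.2
      rw [hreg, hreg] at this; omega
    · have := pair_deg h.2.1 h.2.2.1 h.2.2.2
      rw [hreg, hreg] at this; omega
  have h1 : ∀ y z, G.Adj y z → ∀ x, G.Adj z x ↔ ¬ G.Adj y x := by
    intro y z hyz x
    have hd : Disjoint (G.neighborFinset y) (G.neighborFinset z) := by
      rw [Finset.disjoint_left]
      intro x hx hx'
      simp only [SimpleGraph.mem_neighborFinset] at hx hx'
      exact h0 y z hyz x ⟨hx, hx'.symm⟩
    have h4 := card_union_of_disjoint hd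
    rw [SimpleGraph.card_neighborFinset_eq_degree, SimpleGraph.card_neighborFinset_eq_degree, hreg, hreg] at h4
    have h5 : G.neighborFinset y ∪ G.neighborFinset z = univ := by
      apply eq_univ_of_card
      omega
    have h6 : x ∈ G.neighborFinset y ∪ G.neighborFinset z := by rw [h5]; exact mem_univ x
    simp only [mem_union, SimpleGraph.mem_neighborFinset] at h6
    constructor
    · intro h7 h8
      exact h0 y z hyz x ⟨h8, h7.symm⟩
    · intro h7
      tauto
  have hne : Nonempty V := by
    rw [← Fintype.card_pos_iff]; omega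
  obtain ⟨y0⟩ := hne
  have hz : 0 < #(G.neighborFinset y0) := by
    rw [SimpleGraph.card_neighborFinset_eq_degree, hreg]; omega
  obtain ⟨z0, hz0⟩ := card_pos.1 hz
  rw [SimpleGraph.mem_neighborFinset] at hz0
  refine ⟨G.neighborFinset y0, ?_, ?_⟩
  · rw [SimpleGraph.card_neighborFinset_eq_degree, hreg]
  · intro a b
    simp only [SimpleGraph.mem_neighborFinset]
    by_cases ha : G.Adj y0 a
    · have := h1 y0 a ha b
      tauto
    · have h2 : G.Adj z0 a := (h1 y0 z0 hz0 a).2 ha
      have h3 := h1 z0 a h2 b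
      have h4 := h1 y0 z0 hz0 b
      tauto

end Pool.Agent.Helper65.MS
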