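import Mathlib
import Pool.Agent.Helper65.MSEq1
set_option autoImplicit false
namespace Pool.Agent.Helper65.MS
open Finset

variable {V : Type*} [Fintype V] [DecidableEq V] {G : SimpleGraph V} [DecidableRel G.Adj]

lemma count_SS (hc : Crit G) (D : ℕ) (hn : Fintype.card V + 1 = 2 * D)
    (S T2 : Finset V) (hS : ∀ x ∈ S, G.degree x = D)
    (hT2 : ∀ x, 1 ≤ G.degree x → G.degree x + 2 ≤ D → x ∈ T2) :
    ∑ y ∈ S, #(S.filter (fun x => G.Adj y x)) ≤ 2 * ∑ w ∈ T2, #(S.filter (fun y => ¬ G.Adj y w)) := by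
  classical
  set P := (S ×ˢ S).filter (fun p => G.Adj p.1 p.2) with hP
  have e1 : ∑ y ∈ S, #(S.filter (fun x => G.Adj y x)) = #P := by
    rw [hP, Finset.card_filter, Finset.sum_product]
    apply Finset.sum_congr rfl
    intro y _
    rw [Finset.card_filter]
  set A := P.filter (fun p => ∃ w, w ∈ T2 ∧ ¬ G.Adj p.1 w ∧ G.Adj p.2 w ∧
    ∀ x, G.Adj p.1 x → G.Adj x w → x = p.2) with hA
  have hsub : P ⊆ A ∪ A.image Prod.swap := by
    rintro ⟨y, z⟩ hp
    have hp' := hp
    simp only [hP, mem_filter, mem_product] at hp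
    obtain ⟨⟨hy, hz⟩, hyz⟩ := hp
    have dy := hS y hy
    have dz := hS z hz
    rcases hc y z hyz with h | ⟨w, h | h⟩
    · have := edge_deg h
      omega
    · obtain ⟨h1, h2, h3, h4⟩ := h
      have h5 := pair_deg h2 h3 h4
      have h6 : 1 ≤ G.degree w := by
        rw [Nat.one_le_iff_ne_zero, ← Nat.pos_iff_ne_zero, SimpleGraph.degree_pos_iff_exists_adj]
        exact ⟨z, h1.symm⟩
      apply mem_union_left
      rw [hA, mem_filter]
      exact ⟨hp', w, hT2 w h6 (by omega), h2, h1, h4⟩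
    · obtain ⟨h1, h2, h3, h4⟩ := h
      have h5 := pair_deg h2 h3 h4
      have h6 : 1 ≤ G.degree w := by
        rw [Nat.one_le_iff_ne_zero, ← Nat.pos_iff_ne_zero, SimpleGraph.degree_pos_iff_exists_adj]
        exact ⟨y, h1.symm⟩
      apply mem_union_right
      rw [mem_image]
      refine ⟨(z, y), ?_, rfl⟩
      rw [hA, mem_filter]
      refine ⟨?_, w, hT2 w h6 (by omega), h2, h1, h4⟩
      simp only [hP, mem_filter, mem_product]
      exact ⟨⟨hz, hy⟩, hyz.symm⟩
  have e2 : #P ≤ 2 * #A := by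
    calc #P ≤ #(A ∪ A.image Prod.swap) := card_le_card hsub
      _ ≤ #A + #(A.image Prod.swap) := card_union_le _ _
      _ ≤ #A + #A := by
        have := card_image_le (s := A) (f := (Prod.swap : V × V → V × V))
        omega
      _ = 2 * #A := by ring
  have hex : ∀ p ∈ A, ∃ w, w ∈ T2 ∧ ¬ G.Adj p.1 w ∧ G.Adj p.2 w ∧
    ∀ x, G.Adj p.1 x → G.Adj x w → x = p.2 := by
    intro p hp
    exact (mem_filter.1 hp).2
  have e3 : #A ≤ #((T2 ×ˢ S).filter (fun q => ¬ G.Adj q.2 q.1)) := by
    by_cases hAe : A = ∅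
    · rw [hAe]; simp
    obtain ⟨p0, hp0⟩ := Finset.nonempty_iff_ne_empty.2 hAe
    haveI : Nonempty V := ⟨p0.1⟩
    choose! f hf using hex
    apply Finset.card_le_card_of_injOn (fun p => (f p, p.1))
    · intro p hp
      have hp : p ∈ A := hp
      have h1 := hf p hp
      have h2 := (mem_filter.1 (mem_filter.1 hp).1).1
      rw [mem_product] at h2
      simp only [coe_filter, mem_product, Set.mem_setOf_eq]
      exact ⟨⟨h1.1, h2.1⟩, h1.2.1⟩
    · intro p hp p' hp' h
      have hp : p ∈ A := hp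
      have hp' : p' ∈ A := hp'
      simp only [Prod.mk.injEq] at h
      obtain ⟨h1, h2⟩ := h
      have a1 := hf p hp
      have a2 := hf p' hp'
      have a3 := (mem_filter.1 (mem_filter.1 hp').1).2
      have a4 := a1.2.2.2 p'.2 (by rw [h2]; exact a3) (by rw [h1]; exact a2.2.2.1)
      exact Prod.ext h2 a4.symm
  have e4 : #((T2 ×ˢ S).filter (fun q => ¬ G.Adj q.2 q.1)) = ∑ w ∈ T2, #(S.filter (fun y => ¬ G.Adj y w)) := by
    rw [Finset.card_filter, Finset.sum_product]
    apply Finset.sum_congr rfl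
    intro y _
    rw [Finset.card_filter]
  rw [e1, ← e4]
  omega

/-- odd case -/
lemma odd_case (hc : Crit G) (D : ℕ) (hD : 2 ≤ D) (hmax : ∀ x, G.degree x ≤ D)
    (hn : Fintype.card V + 1 = 2 * D) (hsum : ∑ x, G.degree x = 2 * (D * (D - 1))) :
    ∃ S : Finset V, #S = D - 1 ∧ ∀ a b, G.Adj a b ↔ (a ∈ S ∧ b ∉ S ∨ a ∉ S ∧ b ∈ S) := by
  classical
  set S : Finset V := univ.filter (fun x => G.degree x = D) with hS
  set T : Finset V := univ.filter (fun x => ¬ G.degree x = D) with hT
  set T2 : Finset V := univ.filter (fun x => 1 ≤ G.degree x ∧ G.degree x + 2 ≤ D) with hT2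
  have mS : ∀ x, x ∈ S ↔ G.degree x = D := by intro x; simp [hS]
  have mT : ∀ x, x ∈ T ↔ ¬ G.degree x = D := by intro x; simp [hT]
  have mT2 : ∀ x, x ∈ T2 ↔ 1 ≤ G.degree x ∧ G.degree x + 2 ≤ D := by intro x; simp [hT2]
  have hsub : T2 ⊆ T := by
    intro x hx
    rw [mT2] at hx; rw [mT]; omega
  set dS : V → ℤ := fun y => (#(S.filter (fun x => G.Adj y x)) : ℤ) with hdS
  set dT : V → ℤ := fun y => (#(T.filter (fun x => G.Adj y x)) : ℤ) with hdT
  set dg : V → ℤ := fun y => (G.degree y : ℤ) with hdg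
  have hdeg : ∀ y, dS y + dT y = dg y := by
    intro y
    simp only [hdS, hdT, hdg]
    rw [← SimpleGraph.card_neighborFinset_eq_degree]
    have : G.neighborFinset y = S.filter (fun x => G.Adj y x) ∪ T.filter (fun x => G.Adj y x) := by
      ext x
      simp only [SimpleGraph.mem_neighborFinset, mem_union, mem_filter, mS, mT]
      tauto
    rw [this, card_union_of_disjoint]
    · push_cast; ring
    · rw [Finset.disjoint_left]
      intro x hx hx'
      simp only [mem_filter, mS, mT] at hx hx'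
      exact hx'.1 hx.1
  have hST : (#S : ℤ) + #T = 2 * D - 1 := by
    have : #S + #T = Fintype.card V := by
      rw [hS, hT, Finset.card_filter_add_card_filter_not, card_univ]
    have h2 : (Fintype.card V : ℤ) + 1 = 2 * D := by exact_mod_cast hn
    have h3 : (#S : ℤ) + #T = Fintype.card V := by exact_mod_cast this
    linarith
  have hsumST : ∑ x ∈ S, dg x + ∑ x ∈ T, dg x = 2 * (D * (D - 1)) := by
    have h1 : ∑ x ∈ S, dg x + ∑ x ∈ T, dg x = ∑ x, dg x := by
      rw [hS, hT]
      exact Finset.sum_filter_add_sum_filter_not _ _ _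
    rw [h1]
    simp only [hdg]
    have h2 : ((∑ x, G.degree x : ℕ) : ℤ) = ((2 * (D * (D - 1)) : ℕ) : ℤ) := by rw [hsum]
    push_cast [Nat.cast_sub (by omega : 1 ≤ D)] at h2
    exact h2
  have hsumS : ∑ x ∈ S, dg x = D * #S := by
    rw [Finset.sum_congr rfl (fun x hx => by
      show dg x = (D : ℤ)
      simp only [hdg]; rw [(mS x).1 hx])]
    rw [Finset.sum_const, nsmul_eq_mul]; ring
  have hcross : ∑ x ∈ S, dT x = ∑ x ∈ T, dS x := by
    simp only [hdT, hdS]
    have : ∑ x ∈ S, #(T.filter (fun y => G.Adj x y)) = ∑ x ∈ T, #(S.filter (fun y => G.Adj x y)) := by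
      simp_rw [Finset.card_filter]
      rw [Finset.sum_comm]
      apply Finset.sum_congr rfl
      intro x _
      apply Finset.sum_congr rfl
      intro y _
      simp only [G.adj_comm]
    exact_mod_cast this
  have s1 : ∑ x ∈ S, dS x + ∑ x ∈ S, dT x = ∑ x ∈ S, dg x := by
    rw [← Finset.sum_add_distrib]
    exact Finset.sum_congr rfl (fun x _ => hdeg x)
  have s2 : ∑ x ∈ T, dS x + ∑ x ∈ T, dT x = ∑ x ∈ T, dg x := by
    rw [← Finset.sum_add_distrib]
    exact Finset.sum_congr rfl (fun x _ => hdeg x)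
  -- eSS = 2D(D-|T|) + eTT
  have s3 : ∑ x ∈ S, dS x = 2 * D * (D - #T) + ∑ x ∈ T, dT x := by
    have : (#S : ℤ) = 2 * D - 1 - #T := by linarith
    rw [this] at hsumS
    linear_combination s1 - s2 - hcross + 2 * hsumS - hsumST
  have s4 : ∑ x ∈ T, ((D : ℤ) - dg x - 1) = D - #T := by
    rw [Finset.sum_sub_distrib, Finset.sum_sub_distrib, Finset.sum_const, Finset.sum_const, nsmul_eq_mul, nsmul_eq_mul]
    have : (#S : ℤ) = 2 * D - 1 - #T := by linarith
    rw [this] at hsumS
    linear_combination hsumS - hsumST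
  have s5 : ∑ x ∈ T2, ((D : ℤ) - dg x - 1) ≤ D - #T := by
    rw [← s4]
    apply Finset.sum_le_sum_of_subset_of_nonneg hsub
    intro x hx _
    have h1 := (mT x).1 hx
    have h2 := hmax x
    have h3 : G.degree x + 1 ≤ D := by omega
    have h4 : (G.degree x : ℤ) + 1 ≤ D := by exact_mod_cast h3
    simp only [hdg]
    linarith
  have s6 : ∑ x ∈ S, dS x ≤ 2 * ∑ w ∈ T2, ((#S : ℤ) - dS w) := by
    have h1 := count_SS hc D hn S T2 (fun x hx => (mS x).1 hx) (fun x h1 h2 => (mT2 x).2 ⟨h1, h2⟩)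
    have h2 : ∀ w, ((#(S.filter (fun y => ¬ G.Adj y w)) : ℕ) : ℤ) = (#S : ℤ) - dS w := by
      intro w
      have h3 := Finset.card_filter_add_card_filter_not (s := S) (fun y => G.Adj w y)
      have h4 : S.filter (fun y => ¬ G.Adj y w) = S.filter (fun y => ¬ G.Adj w y) := by
        ext y; simp only [mem_filter, G.adj_comm]
      rw [h4]
      simp only [hdS]
      have h5 : (#(S.filter (fun y => G.Adj w y)) : ℤ) + #(S.filter (fun y => ¬ G.Adj w y)) = #S := by exact_mod_cast h3
      linarith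
    have h3 : ((∑ y ∈ S, #(S.filter (fun x => G.Adj y x)) : ℕ) : ℤ) ≤ ((2 * ∑ w ∈ T2, #(S.filter (fun y => ¬ G.Adj y w)) : ℕ) : ℤ) := by
      exact_mod_cast h1
    push_cast at h3
    rw [Finset.sum_congr rfl (fun w _ => h2 w)] at h3
    exact h3
  have dTnn : ∀ x, 0 ≤ dT x := fun x => by simp only [hdT]; positivity
  have dSnn : ∀ x, 0 ≤ dS x := fun x => by simp only [hdS]; positivity
  have s7 : ∑ x ∈ T2, dT x ≤ ∑ x ∈ T, dT x :=
    Finset.sum_le_sum_of_subset_of_nonneg hsub (fun x _ _ => dTnn x)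
  have s8 : ∀ x ∈ T2, dT x ≤ #T - 1 := by
    intro x hx
    have h1 : T.filter (fun y => G.Adj x y) ⊆ T.erase x := by
      intro y hy
      rw [mem_filter] at hy
      rw [mem_erase]
      refine ⟨?_, hy.1⟩
      rintro rfl
      exact G.loopless.irrefl _ hy.2
    have h2 := card_le_card h1
    rw [card_erase_of_mem (hsub hx)] at h2
    have h3 : 1 ≤ #T := card_pos.2 ⟨x, hsub hx⟩
    have h4 : #(T.filter (fun y => G.Adj x y)) + 1 ≤ #T := by omega
    have h5 : (#(T.filter (fun y => G.Adj x y)) : ℤ) + 1 ≤ #T := by exact_mod_cast h4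
    simp only [hdT]
    linarith
  -- combine
  have s9 : ∑ w ∈ T2, (2 * ((D : ℤ) - 1) * ((D : ℤ) - dg w - 2) + 2 * (#T - 1 - dT w)) + ∑ x ∈ T, dT x ≤ 0 := by
    have h1 : ∑ w ∈ T2, (2 * ((D : ℤ) - 1) * ((D : ℤ) - dg w - 2) + 2 * (#T - 1 - dT w))
        = ∑ w ∈ T2, (2 * (D : ℤ) * ((D : ℤ) - dg w - 1)) - 2 * ∑ w ∈ T2, ((#S : ℤ) - dS w) := by
      rw [Finset.mul_sum, ← Finset.sum_sub_distrib]
      apply Finset.sum_congr rfl
      intro w _
      have h2 := hdeg w
      have h3 : (#S : ℤ) = 2 * D - 1 - #T := by linarith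
      have h4 : dS w = dg w - dT w := by linarith
      rw [h3, h4]
      ring
    rw [h1, ← Finset.mul_sum]
    have h5 : 2 * (D : ℤ) * ∑ x ∈ T2, ((D : ℤ) - dg x - 1) ≤ 2 * D * (D - #T) := by
      apply mul_le_mul_of_nonneg_left s5
      positivity
    linarith
  have hD' : (2 : ℤ) ≤ D := by exact_mod_cast hD
  have s10 : ∀ w ∈ T2, 0 ≤ 2 * ((D : ℤ) - 1) * ((D : ℤ) - dg w - 2) + 2 * (#T - 1 - dT w) := by
    intro w hw
    have h1 := s8 w hw
    have h2 := ((mT2 w).1 hw).2
    have h3 : (G.degree w : ℤ) + 2 ≤ D := by exact_mod_cast h2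
    have h4 : 0 ≤ 2 * ((D : ℤ) - 1) * ((D : ℤ) - dg w - 2) := by
      apply mul_nonneg
      · linarith
      · simp only [hdg]; linarith
    linarith
  have s11 : 0 ≤ ∑ w ∈ T2, (2 * ((D : ℤ) - 1) * ((D : ℤ) - dg w - 2) + 2 * (#T - 1 - dT w)) :=
    Finset.sum_nonneg s10
  have s12 : 0 ≤ ∑ x ∈ T, dT x := Finset.sum_nonneg (fun x _ => dTnn x)
  have s13 : ∑ x ∈ T, dT x = 0 := by linarith
  have s14 : ∑ w ∈ T2, (2 * ((D : ℤ) - 1) * ((D : ℤ) - dg w - 2) + 2 * (#T - 1 - dT w)) = 0 := by linarith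
  have s15 : ∀ x ∈ T, dT x = 0 := (Finset.sum_eq_zero_iff_of_nonneg (fun x _ => dTnn x)).1 s13
  have hT2e : T2 = ∅ := by
    by_contra hne
    obtain ⟨w, hw⟩ := Finset.nonempty_iff_ne_empty.2 hne
    have h1 := (Finset.sum_eq_zero_iff_of_nonneg s10).1 s14 w hw
    have h2 := s15 w (hsub hw)
    have h3 := ((mT2 w).1 hw)
    have h4 : (G.degree w : ℤ) + 2 ≤ D := by exact_mod_cast h3.2
    have h4' : (1 : ℤ) ≤ G.degree w := by exact_mod_cast h3.1
    have h5 : (1 : ℤ) ≤ #T := by exact_mod_cast card_pos.2 ⟨w, hsub hw⟩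
    have h6 : 0 ≤ 2 * ((D : ℤ) - 1) * ((D : ℤ) - dg w - 2) := by
      apply mul_nonneg
      · linarith
      · simp only [hdg]; linarith
    have h7 : (#T : ℤ) = 1 := by linarith
    have h8 : 2 * ((D : ℤ) - 1) * ((D : ℤ) - dg w - 2) = 0 := by
      rw [h7, h2] at h1; linarith
    have h9 : (D : ℤ) - dg w - 2 = 0 := by
      rcases mul_eq_zero.1 h8 with h | h
      · exfalso; linarith
      · exact h
    -- T = {w}, so sum over T of (D - dg - 1) = 1 = D - 1
    have h10 : T = {w} := by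
      have : #T = 1 := by exact_mod_cast h7
      obtain ⟨w', hw'⟩ := card_eq_one.1 this
      have := hsub hw
      rw [hw', mem_singleton] at this
      rw [hw', this]
    rw [h10, Finset.sum_singleton, card_singleton] at s4
    simp only [hdg] at h9 s4
    push_cast at s4
    linarith
  have h20 : ∑ x ∈ S, dS x ≤ 0 := by
    rw [hT2e] at s6; simpa using s6
  have h21 : 0 ≤ ∑ x ∈ S, dS x := Finset.sum_nonneg (fun x _ => dSnn x)
  have h22 : ∑ x ∈ S, dS x = 0 := le_antisymm h20 h21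
  have h23 : ∀ x ∈ S, dS x = 0 := (Finset.sum_eq_zero_iff_of_nonneg (fun x _ => dSnn x)).1 h22
  have h24 : (#T : ℤ) = D := by
    rw [h22, s13] at s3
    have : 2 * (D : ℤ) * (D - #T) = 0 := by linarith
    rcases mul_eq_zero.1 this with h | h
    · exfalso; linarith
    · linarith
  have h25 : #T = D := by exact_mod_cast h24
  refine ⟨S, ?_, ?_⟩
  · have : (#S : ℤ) + 1 = D := by linarith
    have : #S + 1 = D := by exact_mod_cast this
    omega
  · have nSS : ∀ a b, a ∈ S → b ∈ S → ¬ G.Adj a b := by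
      intro a b ha hb hab
      have h1 := h23 a ha
      simp only [hdS] at h1
      have h2 : #(S.filter (fun x => G.Adj a x)) = 0 := by exact_mod_cast h1
      rw [card_eq_zero] at h2
      have : b ∈ S.filter (fun x => G.Adj a x) := mem_filter.2 ⟨hb, hab⟩
      rw [h2] at this
      exact absurd this (by simp)
    have nTT : ∀ a b, a ∉ S → b ∉ S → ¬ G.Adj a b := by
      intro a b ha hb hab
      have ha' : a ∈ T := by rw [mT]; rw [mS] at ha; exact ha
      have hb' : b ∈ T := by rw [mT]; rw [mS] at hb; exact hb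
      have h1 := s15 a ha'
      simp only [hdT] at h1
      have h2 : #(T.filter (fun x => G.Adj a x)) = 0 := by exact_mod_cast h1
      rw [card_eq_zero] at h2
      have : b ∈ T.filter (fun x => G.Adj a x) := mem_filter.2 ⟨hb', hab⟩
      rw [h2] at this
      exact absurd this (by simp)
    have yST : ∀ a b, a ∈ S → b ∉ S → G.Adj a b := by
      intro a b ha hb
      have hb' : b ∈ T := by rw [mT]; rw [mS] at hb; exact hb
      have h1 := h23 a ha
      have h2 := hdeg a
      have h3 : dg a = D := by simp only [hdg]; rw [(mS a).1 ha]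
      have h4 : dT a = #T := by linarith
      simp only [hdT] at h4
      have h5 : #(T.filter (fun x => G.Adj a x)) = #T := by exact_mod_cast h4
      have h6 : T.filter (fun x => G.Adj a x) = T := eq_of_subset_of_card_le (filter_subset _ _) (by omega)
      rw [← h6] at hb'
      exact (mem_filter.1 hb').2
    intro a b
    by_cases ha : a ∈ S <;> by_cases hb : b ∈ S
    · have := nSS a b ha hb; tauto
    · have := yST a b ha hb; tauto
    · have := (yST b a hb ha).symm; tauto
    · have := nTT a b ha hb; tauto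

end Pool.Agent.Helper65.MS
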