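import Mathlib
import Pool.Agent.Helper65.MSEq2
set_option autoImplicit false
namespace Pool.Agent.Helper65.MS
open Finset

section
variable {V : Type*} [Fintype V] [DecidableEq V] {G : SimpleGraph V} [DecidableRel G.Adj]

lemma iso_of (S : Finset V) (a b : ℕ) (hS : #S = a) (hn : Fintype.card V = a + b)
    (hadj : ∀ x y, G.Adj x y ↔ (x ∈ S ∧ y ∉ S ∨ x ∉ S ∧ y ∈ S)) :
    Nonempty (G ≃g completeBipartiteGraph (Fin a) (Fin b)) := by
  classical
  have e1 : {x // x ∈ S} ≃ Fin a := Fintype.equivFinOfCardEq (by simp [hS])
  have e2 : {x // ¬ x ∈ S} ≃ Fin b := Fintype.equivFinOfCardEq (by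
    rw [Fintype.card_subtype_compl]
    simp [hS, hn])
  let E : V ≃ Fin a ⊕ Fin b := (Equiv.sumCompl (fun x => x ∈ S)).symm.trans (Equiv.sumCongr e1 e2)
  have hl : ∀ x, x ∈ S → ∃ i, E x = Sum.inl i := by
    intro x hx
    refine ⟨e1 ⟨x, hx⟩, ?_⟩
    simp only [E, Equiv.trans_apply]
    rw [Equiv.sumCompl_symm_apply_of_pos (p := fun x => x ∈ S) hx]
    rfl
  have hr : ∀ x, x ∉ S → ∃ i, E x = Sum.inr i := by
    intro x hx
    refine ⟨e2 ⟨x, hx⟩, ?_⟩
    simp only [E, Equiv.trans_apply]
    rw [Equiv.sumCompl_symm_apply_of_neg (p := fun x => x ∈ S) hx]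
    rfl
  refine ⟨⟨E, ?_⟩⟩
  intro x y
  rw [hadj]
  by_cases hx : x ∈ S <;> by_cases hy : y ∈ S
  · obtain ⟨i, hi⟩ := hl x hx
    obtain ⟨j, hj⟩ := hl y hy
    rw [hi, hj]
    simp [completeBipartiteGraph, hx, hy]
  · obtain ⟨i, hi⟩ := hl x hx
    obtain ⟨j, hj⟩ := hr y hy
    rw [hi, hj]
    simp [completeBipartiteGraph, hx, hy]
  · obtain ⟨i, hi⟩ := hr x hx
    obtain ⟨j, hj⟩ := hl y hy
    rw [hi, hj]
    simp [completeBipartiteGraph, hx, hy]
  · obtain ⟨i, hi⟩ := hr x hx
    obtain ⟨j, hj⟩ := hr y hy
    rw [hi, hj]
    simp [completeBipartiteGraph, hx, hy]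

lemma card_of_iso (a b : ℕ) (h : Nonempty (G ≃g completeBipartiteGraph (Fin a) (Fin b))) :
    G.edgeSet.ncard = a * b := by
  obtain ⟨e⟩ := h
  have h1 : Nat.card G.edgeSet = Nat.card (completeBipartiteGraph (Fin a) (Fin b)).edgeSet :=
    Nat.card_congr e.mapEdgeSet
  rw [Nat.card_coe_set_eq, Nat.card_coe_set_eq] at h1
  rw [h1, Set.ncard, SimpleGraph.encard_edgeSet_completeBipartiteGraph]
  simp

/-- the whole Murty-Simon statement from the bound `E ≤ D (n - D)` -/
theorem full_of_bound (hc : Crit G) (hn2 : 2 ≤ Fintype.card V)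
    (v : V) (hmax : ∀ x, G.degree x ≤ G.degree v)
    (hb : #G.edgeFinset ≤ G.degree v * (Fintype.card V - G.degree v)) :
    G.edgeSet.ncard ≤ Fintype.card V ^ 2 / 4 ∧
        (G.edgeSet.ncard = Fintype.card V ^ 2 / 4 ↔
          Nonempty (G ≃g completeBipartiteGraph (Fin (Fintype.card V / 2))
            (Fin (Fintype.card V - Fintype.card V / 2)))) := by
  have hE : G.edgeSet.ncard = #G.edgeFinset := by
    rw [← SimpleGraph.coe_edgeFinset, Set.ncard_coe_finset]
  have hlt : G.degree v < Fintype.card V := G.degree_lt_card_verts v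
  have hshake : ∑ x, G.degree x = 2 * #G.edgeFinset := G.sum_degrees_eq_twice_card_edges
  have hsle : ∑ x, G.degree x ≤ Fintype.card V * G.degree v := by
    calc ∑ x, G.degree x ≤ ∑ _x : V, G.degree v := Finset.sum_le_sum (fun x _ => hmax x)
      _ = _ := by simp
  constructor
  · rw [hE]
    refine le_trans hb ?_
    rw [Nat.le_div_iff_mul_le (by norm_num)]
    obtain ⟨c, hc⟩ := Nat.exists_eq_add_of_lt hlt
    rw [hc]
    have : G.degree v + c + 1 - G.degree v = c + 1 := by omega
    rw [this]
    nlinarith [sq_nonneg ((G.degree v : ℤ) - (c + 1)), Nat.zero_le c, sq_nonneg (((G.degree v : ℕ) : ℤ) - ((c + 1 : ℕ) : ℤ)), four_mul_le_sq_add (G.degree v) (c + 1)]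
  · constructor
    · intro h
      rw [hE] at h
      rcases Nat.even_or_odd' (Fintype.card V) with ⟨m, hm | hm⟩
      · have h4 : Fintype.card V ^ 2 / 4 = m * m := by
          rw [hm]
          have : (2 * m) ^ 2 = 4 * (m * m) := by ring
          rw [this]; simp
        rw [h4] at h
        rw [h, hm] at hb
        have hD : G.degree v = m := by
          obtain ⟨c, hc⟩ := Nat.exists_eq_add_of_lt hlt
          rw [hm] at hc
          have e : 2 * m - G.degree v = c + 1 := by omega
          rw [e] at hb
          have hb' : ((m : ℤ)) * m ≤ G.degree v * (c + 1) := by exact_mod_cast hb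
          have hc' : (2 : ℤ) * m = G.degree v + c + 1 := by exact_mod_cast hc
          have hc2 : (c : ℤ) = 2 * m - G.degree v - 1 := by linarith
          rw [hc2] at hb'
          have : ((G.degree v : ℤ) - m) ^ 2 ≤ 0 := by nlinarith
          have h0 : ((G.degree v : ℤ) - m) ^ 2 = 0 := le_antisymm this (sq_nonneg _)
          have h1 := pow_eq_zero_iff (two_ne_zero) |>.1 h0
          have : (G.degree v : ℤ) = m := by linarith
          exact_mod_cast this
        have hreg : ∀ x, G.degree x = m := by
          by_contra hcon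
          push Not at hcon
          obtain ⟨x, hx⟩ := hcon
          have hx' : G.degree x < m := lt_of_le_of_ne (by rw [← hD]; exact hmax x) hx
          have : ∑ x, G.degree x < ∑ _x : V, m := by
            apply Finset.sum_lt_sum
            · intro y _; rw [← hD]; exact hmax y
            · exact ⟨x, mem_univ x, hx'⟩
          rw [hshake, h] at this
          simp only [sum_const, card_univ, smul_eq_mul, hm] at this
          nlinarith
        obtain ⟨S, hS1, hS2⟩ := even_case hc m (by omega) hreg hm
        have hdiv : Fintype.card V / 2 = m := by omega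
        rw [hdiv]
        have hsub : Fintype.card V - m = m := by omega
        rw [hsub]
        exact iso_of S m m hS1 (by omega) hS2
      · have h4 : Fintype.card V ^ 2 / 4 = m * (m + 1) := by
          rw [hm]
          have : (2 * m + 1) ^ 2 = 4 * (m * (m + 1)) + 1 := by ring
          rw [this]; omega
        rw [h4] at h
        rw [h, hm] at hb
        have hm1 : 1 ≤ m := by omega
        have hD : G.degree v = m + 1 := by
          obtain ⟨c, hc⟩ := Nat.exists_eq_add_of_lt hlt
          rw [hm] at hc
          have e : 2 * m + 1 - G.degree v = c + 1 := by omega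
          rw [e] at hb
          have hb' : ((m : ℤ)) * (m + 1) ≤ G.degree v * (c + 1) := by exact_mod_cast hb
          have hc' : (2 : ℤ) * m + 1 = G.degree v + c + 1 := by exact_mod_cast hc
          have hc2 : (c : ℤ) = 2 * m - G.degree v := by linarith
          rw [hc2] at hb'
          have h1 : ((G.degree v : ℤ) - m) * ((G.degree v : ℤ) - m - 1) ≤ 0 := by nlinarith
          have h2 : 2 * (m * (m + 1)) ≤ (2 * m + 1) * G.degree v := by
            rw [hshake, h, hm] at hsle; exact hsle
          have h3 : m < G.degree v := by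
            by_contra hcon
            push Not at hcon
            nlinarith
          have h3' : (m : ℤ) + 1 ≤ G.degree v := by exact_mod_cast h3
          have h5 : (G.degree v : ℤ) ≤ m + 1 := by
            by_contra hcon
            push Not at hcon
            have : 0 < ((G.degree v : ℤ) - m) * ((G.degree v : ℤ) - m - 1) := by
              apply mul_pos <;> linarith
            linarith
          have : (G.degree v : ℤ) = m + 1 := le_antisymm h5 h3'
          exact_mod_cast this
        obtain ⟨S, hS1, hS2⟩ := odd_case hc (m + 1) (by omega) (by rw [← hD]; exact hmax) (by omega)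
          (by rw [hshake, h]; simp; ring)
        have hdiv : Fintype.card V / 2 = m := by omega
        rw [hdiv]
        have hsub : Fintype.card V - m = m + 1 := by omega
        rw [hsub]
        exact iso_of S m (m + 1) (by simpa using hS1) (by omega) hS2
    · intro h
      rw [card_of_iso _ _ h]
      rcases Nat.even_or_odd' (Fintype.card V) with ⟨m, hm | hm⟩
      · have h4 : Fintype.card V ^ 2 / 4 = m * m := by
          rw [hm]
          have : (2 * m) ^ 2 = 4 * (m * m) := by ring
          rw [this]; simp
        rw [h4]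
        have hdiv : Fintype.card V / 2 = m := by omega
        rw [hdiv]
        have hsub : Fintype.card V - m = m := by omega
        rw [hsub]
      · have h4 : Fintype.card V ^ 2 / 4 = m * (m + 1) := by
          rw [hm]
          have : (2 * m + 1) ^ 2 = 4 * (m * (m + 1)) + 1 := by ring
          rw [this]; omega
        rw [h4]
        have hdiv : Fintype.card V / 2 = m := by omega
        rw [hdiv]
        have hsub : Fintype.card V - m = m + 1 := by omega
        rw [hsub]

end

lemma two_le_card {V : Type*} [Fintype V] (G : SimpleGraph V) (h2 : G.ediam = 2) : 2 ≤ Fintype.card V := by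
  by_contra hcon
  have : Subsingleton V := by
    rw [← Fintype.card_le_one_iff_subsingleton]; omega
  have h0 : G.ediam = 0 := SimpleGraph.ediam_eq_zero_of_subsingleton
  rw [h0] at h2
  exact absurd h2 (by norm_num)

end Pool.Agent.Helper65.MS
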