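import Mathlib
import Pool.Agent.Helper135.MS6
import Pool.Agent.Helper192.MS.Half
import Pool.Agent.Helper65.MSEq3
set_option autoImplicit false

namespace Pool.Agent.Helper65.MS

/-- E ≤ D (n - D) for a vertex of maximum degree D -/
theorem card_edges_le {V : Type*} [Fintype V] [DecidableEq V] {G : SimpleGraph V} [DecidableRel G.Adj]
    (hc : Pool.Agent.Helper135.MS.CritC G) (v : V) (hmax : ∀ x, G.degree x ≤ G.degree v) :
    G.edgeFinset.card ≤ G.degree v * (Fintype.card V - G.degree v) := by
  obtain ⟨K, z, hg, hcount⟩ := Pool.Agent.Helper135.MS.exists_good hc v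
  exact Pool.Agent.Helper135.MS.edge_bound_of_half hg hcount (Pool.Agent.Helper192.MS.sum_ineq_half hg hmax)

/-- the Murty–Simon theorem, for combinatorially critical graphs -/
theorem murty_simon_crit {V : Type*} [Fintype V] (G : SimpleGraph V)
    (hc : Pool.Agent.Helper135.MS.CritC G) (hn : 2 ≤ Fintype.card V) :
      G.edgeSet.ncard ≤ Fintype.card V ^ 2 / 4 ∧
        (G.edgeSet.ncard = Fintype.card V ^ 2 / 4 ↔
          Nonempty (G ≃g completeBipartiteGraph (Fin (Fintype.card V / 2))
            (Fin (Fintype.card V - Fintype.card V / 2)))) := by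
  classical
  have hne : Nonempty V := by rw [← Fintype.card_pos_iff]; omega
  obtain ⟨v, -, hv⟩ := Finset.exists_max_image (Finset.univ : Finset V) (fun x => G.degree x)
    ⟨Classical.arbitrary V, Finset.mem_univ _⟩
  have hmax : ∀ x, G.degree x ≤ G.degree v := fun x => hv x (Finset.mem_univ x)
  exact Pool.Agent.Helper65.MS.full_of_bound hc hn v hmax (card_edges_le hc v hmax)

/-- the Murty–Simon theorem -/
theorem murty_simon :
    ∀ (V : Type) [Fintype V] (G : SimpleGraph V),
      G.ediam = 2 →
      (∀ e ∈ G.edgeSet, 2 < (G.deleteEdges {e}).ediam) →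
      G.edgeSet.ncard ≤ Fintype.card V ^ 2 / 4 ∧
        (G.edgeSet.ncard = Fintype.card V ^ 2 / 4 ↔
          Nonempty (G ≃g completeBipartiteGraph (Fin (Fintype.card V / 2))
            (Fin (Fintype.card V - Fintype.card V / 2)))) := by
  intro V _ G hd hcrit
  exact murty_simon_crit G (Pool.Agent.Helper135.MS.critC_of G hd hcrit)
    (Pool.Agent.Helper65.MS.two_le_card G hd)

end Pool.Agent.Helper65.MS
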